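import Mathlib

/-!
MP_5406dc, lower bound half: a Chernoff bound for colourings with four colours, by counting.
-/

namespace Pool.Agent.H21.LB

open Finset

theorem exp_bound {t : ℝ} (h0 : 0 ≤ t) (h1 : t ≤ 1) :
    Real.exp (t / 4) * (3 + Real.exp (-t)) ≤ 4 * Real.exp (t ^ 2) := by
  have e1 : Real.exp (t / 4) ≤ 1 + t / 4 + (t / 4) ^ 2 := by
    have := Real.abs_exp_sub_one_sub_id_le (x := t / 4) (by rw [abs_le]; constructor <;> linarith)
    have := (abs_le.mp this).2
    linarith
  have e2 : Real.exp (-(3 * t / 4)) ≤ 1 - 3 * t / 4 + (3 * t / 4) ^ 2 := by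
    have := Real.abs_exp_sub_one_sub_id_le (x := -(3 * t / 4))
      (by rw [abs_le]; constructor <;> linarith)
    have := (abs_le.mp this).2
    nlinarith
  have e3 : Real.exp (t / 4) * Real.exp (-t) = Real.exp (-(3 * t / 4)) := by
    rw [← Real.exp_add]
    congr 1
    ring
  have e4 : 1 + t ^ 2 ≤ Real.exp (t ^ 2) := by
    have := Real.add_one_le_exp (t ^ 2)
    linarith
  calc Real.exp (t / 4) * (3 + Real.exp (-t))
      = 3 * Real.exp (t / 4) + Real.exp (t / 4) * Real.exp (-t) := by ring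
    _ = 3 * Real.exp (t / 4) + Real.exp (-(3 * t / 4)) := by rw [e3]
    _ ≤ 3 * (1 + t / 4 + (t / 4) ^ 2) + (1 - 3 * t / 4 + (3 * t / 4) ^ 2) := by linarith
    _ ≤ 4 * (1 + t ^ 2) := by nlinarith [sq_nonneg t]
    _ ≤ 4 * Real.exp (t ^ 2) := by linarith

open Classical in
/-- generating function of the number of cells of `C` with colour `a` -/
theorem sum_exp {Z : Type} [Fintype Z] [DecidableEq Z] (C : Finset Z) (a : Fin 4) (t : ℝ) :
    ∑ c : Z → Fin 4, Real.exp (-(t * ((C.filter fun z => c z = a).card : ℝ))) =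
      (3 + Real.exp (-t)) ^ C.card * 4 ^ (Fintype.card Z - C.card) := by
  have h1 : ∀ c : Z → Fin 4, Real.exp (-(t * ((C.filter fun z => c z = a).card : ℝ))) =
      ∏ z, (if z ∈ C ∧ c z = a then Real.exp (-t) else 1) := by
    intro c
    rw [Finset.prod_ite, Finset.prod_const_one, mul_one, Finset.prod_const, ← Real.exp_nat_mul]
    congr 1
    have : (Finset.univ.filter fun z => z ∈ C ∧ c z = a) = C.filter fun z => c z = a := by
      ext z
      simp
    rw [this]
    ring
  simp_rw [h1]
  have h2 := Finset.prod_univ_sum (fun _ : Z => (Finset.univ : Finset (Fin 4)))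
    (fun z x => if z ∈ C ∧ x = a then Real.exp (-t) else (1 : ℝ))
  rw [Fintype.piFinset_univ] at h2
  rw [← h2]
  have h3 : ∀ z : Z, ∑ x : Fin 4, (if z ∈ C ∧ x = a then Real.exp (-t) else (1 : ℝ)) =
      if z ∈ C then 3 + Real.exp (-t) else 4 := by
    intro z
    by_cases hz : z ∈ C
    · simp only [hz, true_and, if_true]
      fin_cases a <;> simp [Fin.sum_univ_four] <;> ring
    · simp [hz]
  simp_rw [h3]
  rw [Finset.prod_ite, Finset.prod_const, Finset.prod_const]
  have e1 : (Finset.univ.filter fun z => z ∈ C) = C := by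
    ext z
    simp
  have e2 : (Finset.univ.filter fun z => z ∉ C).card = Fintype.card Z - C.card := by
    have : (Finset.univ.filter fun z => z ∉ C) = Cᶜ := by
      ext z
      simp
    rw [this, Finset.card_compl]
  rw [e1, e2]

open Classical in
theorem chernoff {Z : Type} [Fintype Z] [DecidableEq Z] (C : Finset Z) (a : Fin 4) {t : ℝ} (h0 : 0 ≤ t)
    (h1 : t ≤ 1) (T : ℝ) :
    (((Finset.univ : Finset (Z → Fin 4)).filter fun c =>
      ((C.filter fun z => c z = a).card : ℝ) < (C.card : ℝ) / 4 - T).card : ℝ) ≤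
      4 ^ Fintype.card Z * Real.exp (-(t * T) + t ^ 2 * C.card) := by
  set bad := (Finset.univ : Finset (Z → Fin 4)).filter fun c =>
      ((C.filter fun z => c z = a).card : ℝ) < (C.card : ℝ) / 4 - T with hbad
  have hle : C.card ≤ Fintype.card Z := Finset.card_le_univ C
  have hb : ∀ c ∈ bad, (1 : ℝ) ≤ Real.exp (t * ((C.card : ℝ) / 4 - T)) *
      Real.exp (-(t * ((C.filter fun z => c z = a).card : ℝ))) := by
    intro c hc
    rw [hbad, Finset.mem_filter] at hc
    rw [← Real.exp_add]
    apply Real.one_le_exp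
    nlinarith [mul_nonneg h0 (sub_nonneg.mpr hc.2.le)]
  calc (bad.card : ℝ) = ∑ c ∈ bad, (1 : ℝ) := by simp
    _ ≤ ∑ c ∈ bad, Real.exp (t * ((C.card : ℝ) / 4 - T)) *
      Real.exp (-(t * ((C.filter fun z => c z = a).card : ℝ))) := Finset.sum_le_sum hb
    _ ≤ ∑ c : Z → Fin 4, Real.exp (t * ((C.card : ℝ) / 4 - T)) *
      Real.exp (-(t * ((C.filter fun z => c z = a).card : ℝ))) :=
        Finset.sum_le_sum_of_subset_of_nonneg (Finset.subset_univ _)
          (fun _ _ _ => mul_nonneg (Real.exp_pos _).le (Real.exp_pos _).le)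
    _ = Real.exp (t * ((C.card : ℝ) / 4 - T)) *
        ((3 + Real.exp (-t)) ^ C.card * 4 ^ (Fintype.card Z - C.card)) := by
        rw [← Finset.mul_sum, sum_exp]
    _ = Real.exp (-(t * T)) * ((Real.exp (t / 4) * (3 + Real.exp (-t))) ^ C.card *
        4 ^ (Fintype.card Z - C.card)) := by
        have e : t * ((C.card : ℝ) / 4 - T) = -(t * T) + (C.card : ℝ) * (t / 4) := by ring
        rw [e, Real.exp_add, Real.exp_nat_mul, mul_pow]
        ring
    _ ≤ Real.exp (-(t * T)) * ((4 * Real.exp (t ^ 2)) ^ C.card *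
        4 ^ (Fintype.card Z - C.card)) := by
        refine mul_le_mul_of_nonneg_left ?_ (Real.exp_pos _).le
        refine mul_le_mul_of_nonneg_right ?_ (by positivity)
        exact pow_le_pow_left₀ (by positivity) (exp_bound h0 h1) _
    _ = 4 ^ Fintype.card Z * Real.exp (-(t * T) + t ^ 2 * C.card) := by
        have e : (4 : ℝ) ^ Fintype.card Z = 4 ^ C.card * 4 ^ (Fintype.card Z - C.card) := by
          rw [← pow_add]
          congr 1
          omega
        rw [e, mul_pow, ← Real.exp_nat_mul, Real.exp_add, mul_comm ((C.card : ℝ)) (t ^ 2)]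
        ring

end Pool.Agent.H21.LB
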