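import Pool.Agent.H21.LB.Chernoff

/-!
MP_5406dc, lower bound half: a bipartite graph of density 3/4 such that every choice of `k`
vertices shows at least a quarter of nonadjacent pairs, up to `δ k^2`.
-/

namespace Pool.Agent.H21.LB

open Finset Filter

theorem numeric {c : ℝ} (hc : 0 < c) : ∃ K : ℕ, ∀ k : ℕ, K ≤ k →
    4 * ((k : ℝ) ^ 2) ^ k * Real.exp (-(c * (k : ℝ) ^ 2)) < 1 := by
  have h1 : ∀ᶠ x : ℝ in atTop, ‖Real.log x‖ ≤ c / 4 * ‖x‖ := by
    have := Real.isLittleO_log_id_atTop.def (show (0 : ℝ) < c / 4 by positivity)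
    simpa using this
  have h2 : ∀ᶠ x : ℝ in atTop, max 1 (4 / c + 1) ≤ x := eventually_ge_atTop _
  have h3 := (tendsto_natCast_atTop_atTop (R := ℝ)).eventually (h1.and h2)
  obtain ⟨K, hK⟩ := eventually_atTop.mp h3
  refine ⟨K, fun k hk => ?_⟩
  obtain ⟨h4, h5⟩ := hK k hk
  have hk1 : (1 : ℝ) ≤ k := (le_max_left _ _).trans h5
  have hk2 : 4 / c + 1 ≤ (k : ℝ) := (le_max_right _ _).trans h5
  have hk0 : (0 : ℝ) < k := by linarith
  have hlog : Real.log k ≤ c / 4 * k := by
    have h6 := (le_abs_self (Real.log k)).trans h4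
    rwa [Real.norm_of_nonneg hk0.le] at h6
  have e1 : ((k : ℝ) ^ 2) ^ k = Real.exp (k * (2 * Real.log k)) := by
    rw [Real.exp_nat_mul]
    congr 1
    rw [two_mul, Real.exp_add, Real.exp_log hk0]
    ring
  have e2 : (4 : ℝ) < Real.exp 2 := by
    have h7 := Real.exp_one_gt_d9
    have h8 : Real.exp 2 = Real.exp 1 * Real.exp 1 := by
      rw [← Real.exp_add]
      norm_num
    rw [h8]
    nlinarith
  have h9 : 2 * (k : ℝ) * Real.log k ≤ c / 2 * k ^ 2 := by
    have := mul_le_mul_of_nonneg_left hlog (by positivity : (0 : ℝ) ≤ 2 * k)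
    nlinarith
  have h10 : 2 ≤ c / 2 * (k : ℝ) ^ 2 := by
    have h11 : 4 ≤ c * k := by
      have : c * (4 / c + 1) ≤ c * k := mul_le_mul_of_nonneg_left hk2 hc.le
      have h12 : c * (4 / c + 1) = 4 + c := by
        field_simp
      linarith
    nlinarith
  calc 4 * ((k : ℝ) ^ 2) ^ k * Real.exp (-(c * (k : ℝ) ^ 2))
      < Real.exp 2 * ((k : ℝ) ^ 2) ^ k * Real.exp (-(c * (k : ℝ) ^ 2)) := by
        have : 0 < ((k : ℝ) ^ 2) ^ k * Real.exp (-(c * (k : ℝ) ^ 2)) := by positivity
        nlinarith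
    _ = Real.exp (2 + k * (2 * Real.log k) + -(c * (k : ℝ) ^ 2)) := by
        rw [e1, ← Real.exp_add, ← Real.exp_add]
    _ ≤ 1 := by
        rw [Real.exp_le_one_iff]
        nlinarith

/-- the bipartite graph of a relation -/
def bip {s : ℕ} (R : Fin s × Fin s → Prop) : SimpleGraph (Fin s ⊕ Fin s) where
  Adj u v := (∃ x y, u = Sum.inl x ∧ v = Sum.inr y ∧ R (x, y)) ∨
    (∃ x y, v = Sum.inl x ∧ u = Sum.inr y ∧ R (x, y))
  symm := ⟨fun u v h => h.symm⟩
  loopless := ⟨fun u h => by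
    rcases h with ⟨x, y, h1, h2, _⟩ | ⟨x, y, h1, h2, _⟩
    · rw [h1] at h2
      exact Sum.inl_ne_inr h2
    · rw [h1] at h2
      exact Sum.inl_ne_inr h2⟩

theorem bip_side {s : ℕ} (R : Fin s × Fin s → Prop) (u v : Fin s ⊕ Fin s) (h : (bip R).Adj u v) :
    u.isLeft ≠ v.isLeft := by
  rcases h with ⟨x, y, h1, h2, _⟩ | ⟨x, y, h1, h2, _⟩
  · rw [h1, h2]
    simp
  · rw [h1, h2]
    simp

theorem bip_adj_lr {s : ℕ} (R : Fin s × Fin s → Prop) (x y : Fin s) :
    (bip R).Adj (Sum.inl x) (Sum.inr y) ↔ R (x, y) := by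
  constructor
  · rintro (⟨x', y', h1, h2, h⟩ | ⟨x', y', h1, h2, _⟩)
    · rw [Sum.inl.inj h1, Sum.inr.inj h2]
      exact h
    · exact absurd h1.symm Sum.inl_ne_inr
  · intro h
    exact Or.inl ⟨x, y, rfl, rfl, h⟩

open Classical in
theorem bip_edges {s : ℕ} (R : Fin s × Fin s → Prop) :
    (univ.filter fun z => R z).card ≤ Nat.card (bip R).edgeSet := by
  have h1 : (univ.filter fun z => R z).card = Nat.card {z // R z} := by
    rw [Nat.card_eq_fintype_card, Fintype.card_subtype]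
  rw [h1]
  refine Nat.card_le_card_of_injective
    (fun z : {z // R z} => (⟨s(Sum.inl z.1.1, Sum.inr z.1.2), by
      rw [SimpleGraph.mem_edgeSet, bip_adj_lr]
      exact z.2⟩ : (bip R).edgeSet)) ?_
  intro z z' h
  have h2 := Subtype.ext_iff.mp h
  simp only [Sym2.eq_iff] at h2
  apply Subtype.ext
  rcases h2 with ⟨h3, h4⟩ | ⟨h3, _⟩
  · exact Prod.ext (Sum.inl.inj h3) (Sum.inr.inj h4)
  · exact absurd h3 Sum.inl_ne_inr

open Classical in
/-- the cells of the choice `f` -/
noncomputable def cells {s k : ℕ} (f : Fin k → Fin s ⊕ Fin s) : Finset (Fin s × Fin s) :=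
  (univ.filter fun x => (Sum.inl x : Fin s ⊕ Fin s) ∈ Set.range f) ×ˢ
    (univ.filter fun y => (Sum.inr y : Fin s ⊕ Fin s) ∈ Set.range f)

open Classical in
theorem card_left {s k : ℕ} {f : Fin k → Fin s ⊕ Fin s} (hf : Function.Injective f) :
    (univ.filter fun x => (Sum.inl x : Fin s ⊕ Fin s) ∈ Set.range f).card =
      (univ.filter fun i => (f i).isLeft = true).card := by
  rw [← Finset.card_map Function.Embedding.inl,
    ← Finset.card_image_of_injective (univ.filter fun i => (f i).isLeft = true) hf]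
  congr 1
  ext v
  rw [Finset.mem_map, Finset.mem_image]
  constructor
  · rintro ⟨x, hx, rfl⟩
    obtain ⟨i, hi⟩ := (Finset.mem_filter.mp hx).2
    refine ⟨i, Finset.mem_filter.mpr ⟨Finset.mem_univ _, ?_⟩, hi⟩
    rw [hi]
    rfl
  · rintro ⟨i, hi, rfl⟩
    have h := (Finset.mem_filter.mp hi).2
    obtain ⟨x, hx⟩ := Sum.isLeft_iff.mp h
    refine ⟨x, Finset.mem_filter.mpr ⟨Finset.mem_univ _, ⟨i, hx⟩⟩, hx.symm⟩

open Classical in
theorem card_right {s k : ℕ} {f : Fin k → Fin s ⊕ Fin s} (hf : Function.Injective f) :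
    (univ.filter fun y => (Sum.inr y : Fin s ⊕ Fin s) ∈ Set.range f).card =
      (univ.filter fun i => (f i).isLeft = false).card := by
  rw [← Finset.card_map Function.Embedding.inr,
    ← Finset.card_image_of_injective (univ.filter fun i => (f i).isLeft = false) hf]
  congr 1
  ext v
  rw [Finset.mem_map, Finset.mem_image]
  constructor
  · rintro ⟨x, hx, rfl⟩
    obtain ⟨i, hi⟩ := (Finset.mem_filter.mp hx).2
    refine ⟨i, Finset.mem_filter.mpr ⟨Finset.mem_univ _, ?_⟩, hi⟩
    rw [hi]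
    rfl
  · rintro ⟨i, hi, rfl⟩
    have h := (Finset.mem_filter.mp hi).2
    rw [Sum.isLeft_eq_false] at h
    obtain ⟨x, hx⟩ := Sum.isRight_iff.mp h
    refine ⟨x, Finset.mem_filter.mpr ⟨Finset.mem_univ _, ⟨i, hx⟩⟩, hx.symm⟩

open Classical in
theorem card_cells {s k : ℕ} {f : Fin k → Fin s ⊕ Fin s} (hf : Function.Injective f) :
    (cells f).card = (univ.filter fun i => (f i).isLeft = true).card *
      (univ.filter fun i => (f i).isLeft = false).card := by
  rw [cells, Finset.card_product, card_left hf, card_right hf]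

open Classical in
theorem card_sides {s k : ℕ} (f : Fin k → Fin s ⊕ Fin s) :
    (univ.filter fun i => (f i).isLeft = true).card +
      (univ.filter fun i => (f i).isLeft = false).card = k := by
  have h := Finset.card_filter_add_card_filter_not (s := (univ : Finset (Fin k)))
    (fun i => (f i).isLeft = true)
  simp only [Bool.not_eq_true] at h
  rw [h]
  simp

open Classical in
/-- cells of colour `a` give nonadjacent pairs -/
theorem cells_le {s k : ℕ} (f : Fin k → Fin s ⊕ Fin s) (c : Fin s × Fin s → Fin 4) (a : Fin 4) :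
    ((cells f).filter fun z => c z = a).card ≤
      ((univ : Finset (Fin k × Fin k)).filter fun q => (f q.1).isLeft = true ∧
        (f q.2).isLeft = false ∧ ¬ (bip fun z => c z ≠ a).Adj (f q.1) (f q.2)).card := by
  have hch : ∀ z ∈ (cells f).filter fun z => c z = a, ∃ q : Fin k × Fin k,
      f q.1 = Sum.inl z.1 ∧ f q.2 = Sum.inr z.2 := by
    intro z hz
    have h1 := (Finset.mem_filter.mp hz).1
    rw [cells, Finset.mem_product, Finset.mem_filter, Finset.mem_filter] at h1
    obtain ⟨⟨_, i, hi⟩, _, j, hj⟩ := h1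
    exact ⟨(i, j), hi, hj⟩
  rcases isEmpty_or_nonempty (Fin k × Fin k) with hem | hne
  · have h0 : ((cells f).filter fun z => c z = a) = ∅ := by
      rw [Finset.eq_empty_iff_forall_notMem]
      intro z hz
      obtain ⟨q, _⟩ := hch z hz
      exact hem.elim q
    rw [h0]
    simp
  choose! g hg using hch
  refine Finset.card_le_card_of_injOn g ?_ ?_
  · intro z hz
    rw [Finset.mem_coe] at hz
    have h1 := hg z hz
    rw [Finset.mem_coe, Finset.mem_filter, h1.1, h1.2, bip_adj_lr]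
    refine ⟨Finset.mem_univ _, rfl, rfl, ?_⟩
    intro h2
    exact h2 (Finset.mem_filter.mp hz).2
  · intro z hz z' hz' h
    rw [Finset.mem_coe] at hz hz'
    have h1 := hg z hz
    have h2 := hg z' hz'
    rw [h] at h1
    exact Prod.ext (Sum.inl.inj (h1.1.symm.trans h2.1)) (Sum.inr.inj (h1.2.symm.trans h2.2))

open Classical in
theorem card_cells_le {s k : ℕ} {f : Fin k → Fin s ⊕ Fin s} (hf : Function.Injective f) :
    ((cells f).card : ℝ) ≤ (k : ℝ) ^ 2 / 4 := by
  have hk' := card_sides f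
  have hk'' : ((univ.filter fun i => (f i).isLeft = true).card : ℝ) +
      ((univ.filter fun i => (f i).isLeft = false).card : ℝ) = k := by
    exact_mod_cast hk'
  rw [card_cells hf]
  push_cast
  rw [← hk'']
  nlinarith [sq_nonneg (((univ.filter fun i => (f i).isLeft = true).card : ℝ) -
    ((univ.filter fun i => (f i).isLeft = false).card : ℝ))]

open Classical in
theorem card_choices (s k : ℕ) (hs : 2 * s ≤ k ^ 2)
    (P : Finset (Fin 4 × (Fin k → Fin s ⊕ Fin s))) : (P.card : ℝ) ≤ 4 * ((k : ℝ) ^ 2) ^ k := by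
  have h0 : Fintype.card (Fin 4 × (Fin k → Fin s ⊕ Fin s)) = 4 * (2 * s) ^ k := by
    rw [Fintype.card_prod, Fintype.card_fun, Fintype.card_sum, Fintype.card_fin,
      Fintype.card_fin, Fintype.card_fin, two_mul]
  have h1 : P.card ≤ 4 * (2 * s) ^ k := by
    rw [← h0]
    exact Finset.card_le_univ P
  have h3 : 4 * (2 * s) ^ k ≤ 4 * (k ^ 2) ^ k :=
    Nat.mul_le_mul_left _ (Nat.pow_le_pow_left hs k)
  have h4 := h1.trans h3
  calc (P.card : ℝ) ≤ ((4 * (k ^ 2) ^ k : ℕ) : ℝ) := by exact_mod_cast h4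
    _ = 4 * ((k : ℝ) ^ 2) ^ k := by push_cast; ring

open Classical in
theorem union_bound {α β : Type*} [Fintype α] (P : Finset β) (bad : β → Finset α)
    (hcov : ∀ c : α, ∃ q ∈ P, c ∈ bad q) {E M t : ℝ} (hE : E = (Fintype.card α : ℝ))
    (hone : ∀ q ∈ P, ((bad q).card : ℝ) ≤ E * t) (hP : (P.card : ℝ) ≤ M) (ht : 0 ≤ t)
    (hE0 : 0 < E) (hM : M * t < 1) : False := by
  have h1 : (univ : Finset α) ⊆ P.biUnion bad := by
    intro c _
    obtain ⟨q, hq, h⟩ := hcov c
    exact Finset.mem_biUnion.mpr ⟨q, hq, h⟩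
  have h2 := (Finset.card_le_card h1).trans Finset.card_biUnion_le
  have h3 : E ≤ ∑ q ∈ P, ((bad q).card : ℝ) := by
    rw [hE, ← Finset.card_univ]
    calc ((univ : Finset α).card : ℝ) ≤ ((∑ q ∈ P, (bad q).card : ℕ) : ℝ) := by
          exact Nat.cast_le.mpr h2
      _ = ∑ q ∈ P, ((bad q).card : ℝ) := by rw [Nat.cast_sum]
  have h4 : ∑ q ∈ P, ((bad q).card : ℝ) ≤ P.card * (E * t) := by
    refine (Finset.sum_le_sum hone).trans ?_
    rw [Finset.sum_const, nsmul_eq_mul]
  have h5 : (P.card : ℝ) * (E * t) ≤ M * (E * t) :=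
    mul_le_mul_of_nonneg_right hP (mul_nonneg hE0.le ht)
  have h6 : M * (E * t) = (M * t) * E := by ring
  have h7 : (M * t) * E < 1 * E := mul_lt_mul_of_pos_right hM hE0
  linarith

open Classical in
theorem exists_outside {δ : ℝ} (h0 : 0 < δ) (h1 : δ ≤ 1) {k s : ℕ} (hs : 2 * s ≤ k ^ 2)
    (hnum : 4 * ((k : ℝ) ^ 2) ^ k * Real.exp (-(3 / 4 * δ ^ 2 * (k : ℝ) ^ 2)) < 1) :
    ∃ c : Fin s × Fin s → Fin 4, ∀ (a : Fin 4) (f : Fin k → Fin s ⊕ Fin s),
      Function.Injective f →
      ((cells f).card : ℝ) / 4 - δ * (k : ℝ) ^ 2 ≤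
        (((cells f).filter fun z => c z = a).card : ℝ) := by
  by_contra hcon
  push Not at hcon
  refine union_bound (α := Fin s × Fin s → Fin 4) (β := Fin 4 × (Fin k → Fin s ⊕ Fin s))
    (univ.filter fun q => Function.Injective q.2)
    (fun q => univ.filter fun c => (((cells q.2).filter fun z => c z = q.1).card : ℝ) <
        ((cells q.2).card : ℝ) / 4 - δ * (k : ℝ) ^ 2) ?_
    (E := 4 ^ Fintype.card (Fin s × Fin s)) ?_ ?_ (card_choices s k hs _) (Real.exp_pos _).le
    (by positivity) hnum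
  · intro c
    obtain ⟨a, f, hf, h⟩ := hcon c
    exact ⟨(a, f), by simpa using hf, by simpa using h⟩
  · rw [Fintype.card_fun, Fintype.card_fin, Nat.cast_pow]
    norm_num
  · intro q hq
    have hf : Function.Injective q.2 := by simpa using hq
    refine (chernoff (cells q.2) q.1 h0.le h1 (δ * (k : ℝ) ^ 2)).trans ?_
    refine mul_le_mul_of_nonneg_left ?_ (by positivity)
    rw [Real.exp_le_exp]
    have hab := card_cells_le hf
    nlinarith [mul_le_mul_of_nonneg_left hab (sq_nonneg δ)]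

open Classical in
theorem exists_rare {s : ℕ} (c : Fin s × Fin s → Fin 4) :
    ∃ a : Fin 4, (3 / 4 : ℝ) * (s : ℝ) ^ 2 ≤ ((univ.filter fun z => c z ≠ a).card : ℝ) := by
  have hmin : ∃ a : Fin 4, ((univ.filter fun z => c z = a).card : ℝ) ≤ (s : ℝ) ^ 2 / 4 := by
    by_contra hcon
    push Not at hcon
    have h2 : ∑ a : Fin 4, (univ.filter fun z => c z = a).card = s * s := by
      rw [← Finset.card_eq_sum_card_fiberwise (f := c) (s := univ) (t := univ)
        (fun _ _ => Finset.mem_coe.mpr (Finset.mem_univ _))]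
      simp
    have h3 : ∑ a : Fin 4, ((univ.filter fun z => c z = a).card : ℝ) = (s : ℝ) ^ 2 := by
      have : ((∑ a : Fin 4, (univ.filter fun z => c z = a).card : ℕ) : ℝ) = ((s * s : ℕ) : ℝ) := by
        rw [h2]
      push_cast at this
      rw [this]
      ring
    have h4 : ∑ _a : Fin 4, (s : ℝ) ^ 2 / 4 <
        ∑ a : Fin 4, ((univ.filter fun z => c z = a).card : ℝ) :=
      Finset.sum_lt_sum_of_nonempty Finset.univ_nonempty (fun a _ => hcon a)
    rw [h3] at h4
    simp at h4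
    linarith
  obtain ⟨a, ha⟩ := hmin
  refine ⟨a, ?_⟩
  have h5 := Finset.card_filter_add_card_filter_not (s := (univ : Finset (Fin s × Fin s)))
    (fun z => c z = a)
  have h6 : ((univ.filter fun z => c z = a).card : ℝ) +
      ((univ.filter fun z => ¬ c z = a).card : ℝ) = (s : ℝ) ^ 2 := by
    have : (((univ.filter fun z => c z = a).card +
      (univ.filter fun z => ¬ c z = a).card : ℕ) : ℝ) = ((s * s : ℕ) : ℝ) := by
      rw [h5]
      simp
    push_cast at this
    rw [this]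
    ring
  have h7 : ((univ.filter fun z => c z ≠ a).card : ℝ) =
      ((univ.filter fun z => ¬ c z = a).card : ℝ) := rfl
  rw [h7]
  linarith

open Classical in
theorem exists_colouring {δ : ℝ} (h0 : 0 < δ) (h1 : δ ≤ 1) : ∃ K : ℕ, ∀ k : ℕ, K ≤ k →
    ∀ s : ℕ, 2 * s ≤ k ^ 2 → ∃ R : Fin s × Fin s → Prop,
      (3 / 4 : ℝ) * (s : ℝ) ^ 2 ≤ ((univ.filter fun z => R z).card : ℝ) ∧
      ∀ f : Fin k → Fin s ⊕ Fin s, Function.Injective f →
        ((univ.filter fun i => (f i).isLeft = true).card : ℝ) *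
          ((univ.filter fun i => (f i).isLeft = false).card : ℝ) / 4 - δ * (k : ℝ) ^ 2 ≤
        (((univ : Finset (Fin k × Fin k)).filter fun q => (f q.1).isLeft = true ∧
          (f q.2).isLeft = false ∧ ¬ (bip R).Adj (f q.1) (f q.2)).card : ℝ) := by
  obtain ⟨K, hK⟩ := numeric (show (0 : ℝ) < 3 / 4 * δ ^ 2 by positivity)
  refine ⟨K, fun k hk s hs => ?_⟩
  obtain ⟨c, hc⟩ := exists_outside h0 h1 hs (hK k hk)
  obtain ⟨a, ha⟩ := exists_rare c
  refine ⟨fun z => c z ≠ a, ?_, ?_⟩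
  · convert ha
  intro f hf
  have h8 := hc a f hf
  rw [card_cells hf] at h8
  push_cast at h8
  have h9 : (((cells f).filter fun z => c z = a).card : ℝ) ≤
      (((univ : Finset (Fin k × Fin k)).filter fun q => (f q.1).isLeft = true ∧
      (f q.2).isLeft = false ∧ ¬ (bip fun z => c z ≠ a).Adj (f q.1) (f q.2)).card : ℝ) := by
    exact_mod_cast cells_le f c a
  exact h8.trans h9

end Pool.Agent.H21.LB
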