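import Pool.Agent.H21.LB.Lower
import Pool.Agent.H25.TD.Dense

/-!
MP_5406dc: the template inequality with the constant `9/128` gives the whole frozen statement.
-/

namespace Pool.Agent.H21.LB

/-- If the template inequality holds with `9 / 128` then the frozen statement S08783 holds. -/
theorem full_of_tineq (hT : Pool.Agent.H25.TD.TIneq (9 / 128)) :
    ∀ ε : ℝ, 0 < ε → ∃ K : ℕ, ∀ k : ℕ, K ≤ k →
      (∀ (V : Type) [Finite V] [Nonempty V] (G : SimpleGraph V),
        (1 + ε) * (9 * (k : ℝ) ^ 2 / 64) * (Nat.card V : ℝ) ≤ 2 * (Nat.card G.edgeSet : ℝ) →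
        ∃ f : Fin k → V, Function.Injective f ∧
          ∃ p : ∀ i j : Fin k, G.Walk (f i) (f j),
            (∀ i j : Fin k, i < j → (p i j).IsPath) ∧
            (∀ i j : Fin k, i < j → ∀ v ∈ (p i j).support,
                v ∈ Set.range f → v = f i ∨ v = f j) ∧
            (∀ i j i' j' : Fin k, i < j → i' < j' → (i, j) ≠ (i', j') →
                ∀ v ∈ (p i j).support, v ∈ (p i' j').support → v ∈ Set.range f)) ∧
      (∃ (V : Type) (_ : Finite V) (_ : Nonempty V) (G : SimpleGraph V),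
        (1 - ε) * (9 * (k : ℝ) ^ 2 / 64) * (Nat.card V : ℝ) ≤ 2 * (Nat.card G.edgeSet : ℝ) ∧
        ¬ ∃ f : Fin k → V, Function.Injective f ∧
          ∃ p : ∀ i j : Fin k, G.Walk (f i) (f j),
            (∀ i j : Fin k, i < j → (p i j).IsPath) ∧
            (∀ i j : Fin k, i < j → ∀ v ∈ (p i j).support,
                v ∈ Set.range f → v = f i ∨ v = f j) ∧
            (∀ i j i' j' : Fin k, i < j → i' < j' → (i, j) ≠ (i', j') →
                ∀ v ∈ (p i j).support, v ∈ (p i' j').support → v ∈ Set.range f)) := by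
  intro ε hε
  obtain ⟨K1, hK1⟩ := Pool.Agent.H25.TD.sub_le_of_tineq (9 / 128) (by norm_num) hT
    (ε * (9 / 64)) (by positivity)
  obtain ⟨K2, hK2⟩ := lower_bound ε hε
  refine ⟨max K1 K2, fun k hk => ⟨?_, hK2 k ((le_max_right _ _).trans hk)⟩⟩
  intro V _ _ G hG
  refine hK1 k ((le_max_left _ _).trans hk) V G ?_
  have e : (2 * (9 / 128 : ℝ) + ε * (9 / 64)) * (k : ℝ) ^ 2 =
      (1 + ε) * (9 * (k : ℝ) ^ 2 / 64) := by ring
  rw [e]
  exact hG

end Pool.Agent.H21.LB
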