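import Mathlib

/-!
MP_5406dc, lower bound half: counting the interior vertices of a subdivided complete graph in a
bipartite graph.
-/

namespace Pool.Agent.H21.LB

open Finset

open Classical in
/-- the neighbour of `f i` on the path between `f i` and `f j` -/
noncomputable def wv {V : Type} {G : SimpleGraph V} {k : ℕ} {f : Fin k → V}
    (p : ∀ i j : Fin k, G.Walk (f i) (f j)) (i j : Fin k) : V :=
  if i < j then (p i j).snd else (p j i).penultimate

theorem wv_adj {V : Type} {G : SimpleGraph V} {k : ℕ} {f : Fin k → V}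
    (hf : Function.Injective f) (p : ∀ i j : Fin k, G.Walk (f i) (f j)) {i j : Fin k}
    (hij : i ≠ j) : G.Adj (f i) (wv p i j) := by
  have hne : f i ≠ f j := fun h => hij (hf h)
  unfold wv
  split_ifs with h
  · exact (p i j).adj_snd (SimpleGraph.Walk.not_nil_of_ne hne)
  · exact ((p j i).adj_penultimate (SimpleGraph.Walk.not_nil_of_ne hne.symm)).symm

theorem wv_mem {V : Type} {G : SimpleGraph V} {k : ℕ} {f : Fin k → V}
    (p : ∀ i j : Fin k, G.Walk (f i) (f j)) (i j : Fin k) :
    (i < j → wv p i j ∈ (p i j).support) ∧ (j < i → wv p i j ∈ (p j i).support) := by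
  refine ⟨fun h => ?_, fun h => ?_⟩
  · unfold wv
    rw [if_pos h]
    exact (p i j).getVert_mem_support 1
  · unfold wv
    rw [if_neg (not_lt.mpr h.le)]
    exact (p j i).getVert_mem_support _

open Classical in
/-- In a bipartite graph the pairs of branch vertices of the same side `b` and the nonadjacent
pairs of branch vertices of different sides need different interior vertices on the other side. -/
theorem count_side {V : Type} [Fintype V] (G : SimpleGraph V) (side : V → Bool)
    (hside : ∀ u v, G.Adj u v → side u ≠ side v) {k : ℕ} (f : Fin k → V)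
    (hf : Function.Injective f) (p : ∀ i j : Fin k, G.Walk (f i) (f j))
    (h2 : ∀ i j : Fin k, i < j → ∀ v ∈ (p i j).support, v ∈ Set.range f → v = f i ∨ v = f j)
    (h3 : ∀ i j i' j' : Fin k, i < j → i' < j' → (i, j) ≠ (i', j') →
      ∀ v ∈ (p i j).support, v ∈ (p i' j').support → v ∈ Set.range f) (b : Bool) :
    ((univ : Finset (Fin k × Fin k)).filter fun q => side (f q.1) = b ∧
      ((side (f q.2) = b ∧ q.1 < q.2) ∨ (side (f q.2) ≠ b ∧ ¬ G.Adj (f q.1) (f q.2)))).card ≤
    ((univ : Finset V).filter fun v => side v ≠ b).card := by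
  refine Finset.card_le_card_of_injOn (fun q => wv p q.1 q.2) ?_ ?_
  · intro q hq
    rw [Finset.mem_coe, Finset.mem_filter] at hq
    rw [Finset.mem_coe, Finset.mem_filter]
    refine ⟨Finset.mem_univ _, ?_⟩
    have hne : q.1 ≠ q.2 := by
      intro h
      rcases hq.2.2 with ⟨_, h'⟩ | ⟨h', _⟩
      · exact (h ▸ h' : q.1 < q.1).ne rfl
      · exact h' (h ▸ hq.2.1)
    have := hside _ _ (wv_adj hf p hne)
    rw [hq.2.1] at this
    exact this.symm
  · intro q hq q' hq' heq
    rw [Finset.mem_coe, Finset.mem_filter] at hq hq'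
    obtain ⟨i, j⟩ := q
    obtain ⟨i', j'⟩ := q'
    simp only at hq hq' heq
    have key : ∀ i j : Fin k, (side (f i) = b ∧
        ((side (f j) = b ∧ i < j) ∨ (side (f j) ≠ b ∧ ¬ G.Adj (f i) (f j)))) →
        i ≠ j ∧ wv p i j ∉ Set.range f := by
      intro i j h
      have hne : i ≠ j := by
        intro h0
        rcases h.2 with ⟨_, h'⟩ | ⟨h', _⟩
        · exact (h0 ▸ h' : i < i).ne rfl
        · exact h' (h0 ▸ h.1)
      refine ⟨hne, fun hr => ?_⟩
      have hadj := wv_adj hf p hne
      have hmem : wv p i j = f i ∨ wv p i j = f j := by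
        rcases lt_or_gt_of_ne hne with hlt | hlt
        · exact h2 i j hlt _ ((wv_mem p i j).1 hlt) hr
        · exact (h2 j i hlt _ ((wv_mem p i j).2 hlt) hr).symm
      rcases hmem with h' | h'
      · rw [h'] at hadj
        exact G.loopless.irrefl _ hadj
      · rw [h'] at hadj
        rcases h.2 with ⟨hb, _⟩ | ⟨_, hna⟩
        · exact hside _ _ hadj (h.1.trans hb.symm)
        · exact hna hadj
    obtain ⟨hne, hnr⟩ := key i j hq.2
    obtain ⟨hne', hnr'⟩ := key i' j' hq'.2
    have hsame : ∀ a c a' c' : Fin k, a < c → a' < c' → wv p i j ∈ (p a c).support →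
        wv p i' j' ∈ (p a' c').support → a = a' ∧ c = c' := by
      intro a c a' c' hac hac' hm hm'
      by_contra hcon
      refine hnr (h3 a c a' c' hac hac' ?_ _ hm ?_)
      · intro h
        rw [Prod.ext_iff] at h
        exact hcon h
      · rw [heq]
        exact hm'
    rcases lt_or_gt_of_ne hne with hlt | hlt <;> rcases lt_or_gt_of_ne hne' with hlt' | hlt'
    · obtain ⟨e1, e2⟩ := hsame i j i' j' hlt hlt' ((wv_mem p i j).1 hlt) ((wv_mem p i' j').1 hlt')
      rw [e1, e2]
    · exfalso
      obtain ⟨e1, e2⟩ := hsame i j j' i' hlt hlt' ((wv_mem p i j).1 hlt) ((wv_mem p i' j').2 hlt')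
      subst e1
      subst e2
      rcases hq'.2.2 with ⟨_, h⟩ | ⟨h, _⟩
      · exact absurd h (not_lt.mpr hlt.le)
      · exact h hq.2.1
    · exfalso
      obtain ⟨e1, e2⟩ := hsame j i i' j' hlt hlt' ((wv_mem p i j).2 hlt) ((wv_mem p i' j').1 hlt')
      subst e1
      subst e2
      rcases hq.2.2 with ⟨_, h⟩ | ⟨h, _⟩
      · exact absurd h (not_lt.mpr hlt'.le)
      · exact h hq'.2.1
    · obtain ⟨e1, e2⟩ := hsame j i j' i' hlt hlt' ((wv_mem p i j).2 hlt) ((wv_mem p i' j').2 hlt')
      rw [e1, e2]

end Pool.Agent.H21.LB
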