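import Pool.Agent.H21.LB.Colour
import Pool.Agent.H21.LB.Side

/-!
MP_5406dc, lower bound half: for large `k` there is a finite (bipartite) graph of average degree at
least `(1 - ε) 9 k^2 / 64` without a subdivision of the complete graph on `k` vertices.
-/

namespace Pool.Agent.H21.LB

open Finset Filter

open Classical in
theorem pairs_lt {k : ℕ} (A : Finset (Fin k)) :
    2 * ((univ : Finset (Fin k × Fin k)).filter fun q => q.1 ∈ A ∧ q.2 ∈ A ∧ q.1 < q.2).card +
      A.card = A.card * A.card := by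
  have hswap : ((univ : Finset (Fin k × Fin k)).filter fun q => q.1 ∈ A ∧ q.2 ∈ A ∧
      q.2 < q.1).card =
      ((univ : Finset (Fin k × Fin k)).filter fun q => q.1 ∈ A ∧ q.2 ∈ A ∧ q.1 < q.2).card := by
    refine Finset.card_bij' (fun q _ => q.swap) (fun q _ => q.swap) ?_ ?_ ?_ ?_
    · intro q hq
      have h := (Finset.mem_filter.mp hq).2
      exact Finset.mem_filter.mpr ⟨Finset.mem_univ _, h.2.1, h.1, h.2.2⟩
    · intro q hq
      have h := (Finset.mem_filter.mp hq).2
      exact Finset.mem_filter.mpr ⟨Finset.mem_univ _, h.2.1, h.1, h.2.2⟩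
    · intro q _
      exact Prod.swap_swap q
    · intro q _
      exact Prod.swap_swap q
  have hdiag : ((univ : Finset (Fin k × Fin k)).filter fun q => q.1 ∈ A ∧ q.2 ∈ A ∧
      q.1 = q.2).card = A.card := by
    refine Finset.card_bij' (fun q _ => q.1) (fun i _ => (i, i)) ?_ ?_ ?_ ?_
    · intro q hq
      exact (Finset.mem_filter.mp hq).2.1
    · intro i hi
      exact Finset.mem_filter.mpr ⟨Finset.mem_univ _, hi, hi, rfl⟩
    · intro q hq
      have h := (Finset.mem_filter.mp hq).2.2.2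
      exact Prod.ext rfl h
    · intro i _
      rfl
  have hall : (A ×ˢ A) =
      (((univ : Finset (Fin k × Fin k)).filter fun q => q.1 ∈ A ∧ q.2 ∈ A ∧ q.1 < q.2) ∪
      ((univ : Finset (Fin k × Fin k)).filter fun q => q.1 ∈ A ∧ q.2 ∈ A ∧ q.2 < q.1)) ∪
      ((univ : Finset (Fin k × Fin k)).filter fun q => q.1 ∈ A ∧ q.2 ∈ A ∧ q.1 = q.2) := by
    ext q
    simp only [Finset.mem_product, Finset.mem_union, Finset.mem_filter, Finset.mem_univ, true_and]
    constructor
    · rintro ⟨h1, h2⟩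
      rcases lt_trichotomy q.1 q.2 with h | h | h
      · exact Or.inl (Or.inl ⟨h1, h2, h⟩)
      · exact Or.inr ⟨h1, h2, h⟩
      · exact Or.inl (Or.inr ⟨h1, h2, h⟩)
    · rintro ((⟨h1, h2, _⟩ | ⟨h1, h2, _⟩) | ⟨h1, h2, _⟩) <;> exact ⟨h1, h2⟩
  have hcard := congrArg Finset.card hall
  rw [Finset.card_product, Finset.card_union_of_disjoint, Finset.card_union_of_disjoint, hswap,
    hdiag] at hcard
  · omega
  · rw [Finset.disjoint_left]
    intro q h1 h2
    exact absurd (Finset.mem_filter.mp h1).2.2.2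
      (not_lt.mpr (Finset.mem_filter.mp h2).2.2.2.le)
  · rw [Finset.disjoint_left]
    intro q h1 h2
    have h3 := (Finset.mem_filter.mp h2).2.2.2
    rcases Finset.mem_union.mp h1 with h4 | h4
    · exact absurd h3 (Finset.mem_filter.mp h4).2.2.2.ne
    · exact absurd h3.symm (Finset.mem_filter.mp h4).2.2.2.ne

open Classical in
/-- splitting the count of `count_side` -/
theorem split_count {k : ℕ} (t : Fin k → Bool) (b : Bool) (N : Fin k → Fin k → Prop) :
    ((univ : Finset (Fin k × Fin k)).filter fun q => t q.1 = b ∧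
      ((t q.2 = b ∧ q.1 < q.2) ∨ (t q.2 ≠ b ∧ ¬ N q.1 q.2))).card =
    ((univ : Finset (Fin k × Fin k)).filter fun q => q.1 ∈ (univ.filter fun i => t i = b) ∧
      q.2 ∈ (univ.filter fun i => t i = b) ∧ q.1 < q.2).card +
    ((univ : Finset (Fin k × Fin k)).filter fun q => t q.1 = b ∧ t q.2 = !b ∧
      ¬ N q.1 q.2).card := by
  rw [← Finset.card_union_of_disjoint]
  · congr 1
    ext q
    simp only [Finset.mem_union, Finset.mem_filter, Finset.mem_univ, true_and]
    have : t q.2 ≠ b ↔ t q.2 = !b := by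
      cases t q.2 <;> cases b <;> simp
    rw [this]
    tauto
  · rw [Finset.disjoint_left]
    intro q h1 h2
    simp only [Finset.mem_filter, Finset.mem_univ, true_and] at h1 h2
    rw [h1.2.1] at h2
    have := h2.2.1
    cases b <;> simp at this

open Classical in
theorem no_subdivision {s k : ℕ} (R : Fin s × Fin s → Prop) {δ : ℝ}
    (hR : ∀ f : Fin k → Fin s ⊕ Fin s, Function.Injective f →
        ((univ.filter fun i => (f i).isLeft = true).card : ℝ) *
          ((univ.filter fun i => (f i).isLeft = false).card : ℝ) / 4 - δ * (k : ℝ) ^ 2 ≤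
        (((univ : Finset (Fin k × Fin k)).filter fun q => (f q.1).isLeft = true ∧
          (f q.2).isLeft = false ∧ ¬ (bip R).Adj (f q.1) (f q.2)).card : ℝ))
    (hs : 2 * (s : ℝ) < 3 / 8 * (k : ℝ) ^ 2 - (k : ℝ) / 2 - 2 * δ * (k : ℝ) ^ 2) :
    ¬ ∃ f : Fin k → Fin s ⊕ Fin s, Function.Injective f ∧
      ∃ p : ∀ i j : Fin k, (bip R).Walk (f i) (f j),
        (∀ i j : Fin k, i < j → (p i j).IsPath) ∧
        (∀ i j : Fin k, i < j → ∀ v ∈ (p i j).support,
            v ∈ Set.range f → v = f i ∨ v = f j) ∧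
        (∀ i j i' j' : Fin k, i < j → i' < j' → (i, j) ≠ (i', j') →
            ∀ v ∈ (p i j).support, v ∈ (p i' j').support → v ∈ Set.range f) := by
  rintro ⟨f, hf, p, _, h2, h3⟩
  have hM := hR f hf
  have hsum := card_sides f
  have hT := count_side (bip R) Sum.isLeft (bip_side R) f hf p h2 h3 true
  have hF := count_side (bip R) Sum.isLeft (bip_side R) f hf p h2 h3 false
  have cT : ((univ : Finset (Fin s ⊕ Fin s)).filter fun v => v.isLeft ≠ true).card = s := by
    have : ((univ : Finset (Fin s ⊕ Fin s)).filter fun v => v.isLeft ≠ true) =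
        (univ : Finset (Fin s)).map Function.Embedding.inr := by
      ext v
      rcases v with x | x <;> simp
    rw [this, Finset.card_map, Finset.card_univ, Fintype.card_fin]
  have cF : ((univ : Finset (Fin s ⊕ Fin s)).filter fun v => v.isLeft ≠ false).card = s := by
    have : ((univ : Finset (Fin s ⊕ Fin s)).filter fun v => v.isLeft ≠ false) =
        (univ : Finset (Fin s)).map Function.Embedding.inl := by
      ext v
      rcases v with x | x <;> simp
    rw [this, Finset.card_map, Finset.card_univ, Fintype.card_fin]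
  rw [cT, split_count (fun i => (f i).isLeft) true (fun i j => (bip R).Adj (f i) (f j))] at hT
  rw [cF, split_count (fun i => (f i).isLeft) false (fun i j => (bip R).Adj (f i) (f j))] at hF
  have pT := pairs_lt (univ.filter fun i => (f i).isLeft = true)
  have pF := pairs_lt (univ.filter fun i => (f i).isLeft = false)
  have hswap : ((univ : Finset (Fin k × Fin k)).filter fun q => (f q.1).isLeft = false ∧
      (f q.2).isLeft = (!false) ∧ ¬ (bip R).Adj (f q.1) (f q.2)).card =
      ((univ : Finset (Fin k × Fin k)).filter fun q => (f q.1).isLeft = true ∧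
      (f q.2).isLeft = false ∧ ¬ (bip R).Adj (f q.1) (f q.2)).card := by
    refine Finset.card_bij' (fun q _ => q.swap) (fun q _ => q.swap) ?_ ?_ ?_ ?_
    · intro q hq
      have h := (Finset.mem_filter.mp hq).2
      exact Finset.mem_filter.mpr ⟨Finset.mem_univ _, h.2.1, h.1, fun h' => h.2.2 h'.symm⟩
    · intro q hq
      have h := (Finset.mem_filter.mp hq).2
      exact Finset.mem_filter.mpr ⟨Finset.mem_univ _, h.2.1, h.1, fun h' => h.2.2 h'.symm⟩
    · intro q _
      exact Prod.swap_swap q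
    · intro q _
      exact Prod.swap_swap q
  rw [hswap] at hF
  have hT' : ((univ : Finset (Fin k × Fin k)).filter fun q => (f q.1).isLeft = true ∧
      (f q.2).isLeft = (!true) ∧ ¬ (bip R).Adj (f q.1) (f q.2)).card =
      ((univ : Finset (Fin k × Fin k)).filter fun q => (f q.1).isLeft = true ∧
      (f q.2).isLeft = false ∧ ¬ (bip R).Adj (f q.1) (f q.2)).card := rfl
  rw [hT'] at hT
  generalize ((univ : Finset (Fin k × Fin k)).filter fun q => (f q.1).isLeft = true ∧
      (f q.2).isLeft = false ∧ ¬ (bip R).Adj (f q.1) (f q.2)).card = M at hM hT hF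
  generalize hx : ((univ : Finset (Fin k × Fin k)).filter fun q =>
    q.1 ∈ (univ.filter fun i => (f i).isLeft = true) ∧
      q.2 ∈ (univ.filter fun i => (f i).isLeft = true) ∧ q.1 < q.2).card = X at hT pT
  generalize hy : ((univ : Finset (Fin k × Fin k)).filter fun q =>
    q.1 ∈ (univ.filter fun i => (f i).isLeft = false) ∧
      q.2 ∈ (univ.filter fun i => (f i).isLeft = false) ∧ q.1 < q.2).card = Y at hF pF
  generalize (univ.filter fun i => (f i).isLeft = true).card = a at hM hsum pT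
  generalize (univ.filter fun i => (f i).isLeft = false).card = b at hM hsum pF
  clear hx hy hswap hT' cT cF h2 h3 hR
  have e1 : (a : ℝ) + b = k := by exact_mod_cast hsum
  have e2 : (X : ℝ) + M ≤ s := by exact_mod_cast hT
  have e3 : (Y : ℝ) + M ≤ s := by exact_mod_cast hF
  have e4 : 2 * (X : ℝ) + a = a * a := by exact_mod_cast pT
  have e5 : 2 * (Y : ℝ) + b = b * b := by exact_mod_cast pF
  have e6 : (k : ℝ) ^ 2 = (a : ℝ) * a + 2 * a * b + b * b := by
    rw [← e1]
    ring
  have e7 : 3 / 4 * (k : ℝ) ^ 2 ≤ (a : ℝ) * a + a * b + b * b := by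
    rw [e6]
    nlinarith [sq_nonneg ((a : ℝ) - b)]
  nlinarith

open Classical in
/-- The lower bound half of the conjecture of Mader on subdivided complete graphs in the form of
the frozen statement. -/
theorem lower_bound : ∀ ε : ℝ, 0 < ε → ∃ K : ℕ, ∀ k : ℕ, K ≤ k →
      ∃ (V : Type) (_ : Finite V) (_ : Nonempty V) (G : SimpleGraph V),
        (1 - ε) * (9 * (k : ℝ) ^ 2 / 64) * (Nat.card V : ℝ) ≤ 2 * (Nat.card G.edgeSet : ℝ) ∧
        ¬ ∃ f : Fin k → V, Function.Injective f ∧
          ∃ p : ∀ i j : Fin k, G.Walk (f i) (f j),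
            (∀ i j : Fin k, i < j → (p i j).IsPath) ∧
            (∀ i j : Fin k, i < j → ∀ v ∈ (p i j).support,
                v ∈ Set.range f → v = f i ∨ v = f j) ∧
            (∀ i j i' j' : Fin k, i < j → i' < j' → (i, j) ≠ (i', j') →
                ∀ v ∈ (p i j).support, v ∈ (p i' j').support → v ∈ Set.range f) := by
  intro ε hε
  obtain ⟨η, hη0, hη1, hηε⟩ : ∃ η : ℝ, 0 < η ∧ η ≤ 1 ∧ η ≤ ε :=
    ⟨min ε 1, lt_min hε one_pos, min_le_right _ _, min_le_left _ _⟩
  obtain ⟨δ, hδ⟩ : ∃ δ : ℝ, δ = 3 * η / 64 := ⟨_, rfl⟩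
  have hδ0 : 0 < δ := by rw [hδ]; positivity
  have hδ1 : δ ≤ 1 := by rw [hδ]; linarith
  obtain ⟨K, hK⟩ := exists_colouring hδ0 hδ1
  obtain ⟨K2, hK2⟩ := exists_nat_gt (max (1 / δ) 8)
  refine ⟨max K K2, fun k hk => ?_⟩
  have hkK := (le_max_left _ _).trans hk
  have hkK2 : (K2 : ℝ) ≤ k := by exact_mod_cast (le_max_right _ _).trans hk
  have hk1 : 1 / δ < k := ((le_max_left _ _).trans_lt hK2).trans_le hkK2
  have hk2 : 8 < (k : ℝ) := ((le_max_right _ _).trans_lt hK2).trans_le hkK2
  have hk3 : 1 < δ * k := by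
    rw [div_lt_iff₀ hδ0] at hk1
    linarith
  obtain ⟨x, hx⟩ : ∃ x : ℝ, x = (3 / 16 - 2 * δ) * (k : ℝ) ^ 2 := ⟨_, rfl⟩
  have hx0 : 0 ≤ x := by
    rw [hx]
    refine mul_nonneg ?_ (by positivity)
    rw [hδ]
    linarith
  obtain ⟨s, hs⟩ : ∃ s : ℕ, s = ⌊x⌋₊ := ⟨_, rfl⟩
  have hs1 : (s : ℝ) ≤ x := by rw [hs]; exact Nat.floor_le hx0
  have hs2 : x - 1 ≤ s := by
    rw [hs]
    have := Nat.lt_floor_add_one x
    linarith
  have hsk : 2 * s ≤ k ^ 2 := by
    have : (2 * (s : ℝ)) ≤ (k : ℝ) ^ 2 := by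
      rw [hx] at hs1
      nlinarith [mul_nonneg hδ0.le (sq_nonneg (k : ℝ))]
    exact_mod_cast this
  have hbig : 1 ≤ 3 / 32 * η * (k : ℝ) ^ 2 := by
    have e : 3 / 32 * η = 2 * δ := by rw [hδ]; ring
    rw [e]
    nlinarith
  have hs3 : (1 - ε) * (3 / 16) * (k : ℝ) ^ 2 ≤ s := by
    have e : x = 3 / 16 * (k : ℝ) ^ 2 - 3 / 32 * η * (k : ℝ) ^ 2 := by rw [hx, hδ]; ring
    have e2 : η * (k : ℝ) ^ 2 ≤ ε * (k : ℝ) ^ 2 :=
      mul_le_mul_of_nonneg_right hηε (by positivity)
    nlinarith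
  have hspos : 0 < s := by
    have e : x = 3 / 16 * (k : ℝ) ^ 2 - 3 / 32 * η * (k : ℝ) ^ 2 := by rw [hx, hδ]; ring
    have e2 : η * (k : ℝ) ^ 2 ≤ 1 * (k : ℝ) ^ 2 :=
      mul_le_mul_of_nonneg_right hη1 (by positivity)
    have : (0 : ℝ) < s := by nlinarith
    exact_mod_cast this
  obtain ⟨R, hR1, hR2⟩ := hK k hkK s hsk
  refine ⟨Fin s ⊕ Fin s, inferInstance, ⟨Sum.inl ⟨0, hspos⟩⟩, bip R, ?_, ?_⟩
  · have hc : (Nat.card (Fin s ⊕ Fin s) : ℝ) = 2 * s := by
      rw [Nat.card_sum, Nat.card_eq_fintype_card, Fintype.card_fin]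
      push_cast
      ring
    have he : ((univ.filter fun z => R z).card : ℝ) ≤ (Nat.card (bip R).edgeSet : ℝ) := by
      exact_mod_cast bip_edges R
    have hs0 : (0 : ℝ) ≤ s := Nat.cast_nonneg _
    rw [hc]
    have h5 : (1 - ε) * (3 / 16) * (k : ℝ) ^ 2 * s ≤ s * s :=
      mul_le_mul_of_nonneg_right hs3 hs0
    nlinarith
  · refine no_subdivision R hR2 ?_
    rw [hx] at hs1
    nlinarith

end Pool.Agent.H21.LB
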